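import Mathlib
import Pool.Agent.Q63.KU.Dec
import Pool.Agent.Q63.KU.CovDefs

/-!
# The Tate conjecture for divisors on elementary abelian 2-coverings of the quadric surface

Let `Y` be a smooth projective surface over a finite field of odd characteristic, with an action of the group
`G = (ℤ/2)^k`, such that `Y/G` is `P^1 × P^1`; the branch curves `D_i` have bidegrees `(d i, e i)`, normal
crossings, and local monodromies `g i` in `G`. Suppose that for each character `a` of `G` the sum
`(x, y)` of the bidegrees of the `D_i` with `a (g i) ≠ 0` satisfies `x ≤ 2`, or `y ≤ 2`, or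
`x = y = 4`; so each double covering `Y / ker a` is a ruled rational surface or a K3 surface.

Then the Tate conjecture holds for the divisors on `Y`: the span of the divisor classes is the space of
the Frobenius invariant classes, and its dimension is the multiplicity of the eigenvalue `1` of the Frobenius
on `H^2(Y, ℚ_ℓ(1))`.

Examples (surfaces of general type): three curves of bidegree `(2,2)` with the group `(ℤ/2)^2`
(`p_g = 3`); five curves `D_i` of bidegree `(1,1)` with the group `(ℤ/2)^4` (the characters are the even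
subsets): the complete intersections `∑ c_i z_i ^ 2 = 0`, `q(z_0 ^ 2, …, z_4 ^ 2) = 0` of a diagonal
quadric and a quartic in `P^4`, `q` a quadratic form (`p_g = 5`).
-/

set_option autoImplicit false

namespace Pool.Agent.Results.MP_8ac872_ag.AbelianQuadrics

open Pool.Agent.Q63.KU

theorem result {F V : Type} [Field F] [IsAlgClosed F] [CharZero F] [AddCommGroup V] [Module F V]
    {k s : ℕ} (g : Fin s → Fin k → ZMod 2) (d e : Fin s → ℕ)
    (h : ∀ a : Fin k → ZMod 2, wt g d a ≤ 2 ∨ wt g e a ≤ 2 ∨ (wt g d a = 4 ∧ wt g e a = 4))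
    (ρ : Representation F (Multiplicative (Fin k → ZMod 2)) V) (φ : V →ₗ[F] V)
    (A : Submodule F V) (hD : QuadricData g d e ρ φ A) :
    (∀ v, v ∈ A ↔ φ v = v) ∧ ∀ v, v ∈ A ↔ ∃ n : ℕ, ((φ - 1) ^ n) v = 0 := by
  have hpow : ∀ (n : ℕ) (x : Multiplicative (Fin k → ZMod 2)) (v : V),
      ρ x (((φ - 1) ^ n) v) = ((φ - 1) ^ n) (ρ x v) := by
    intro n x
    induction n with
    | zero => intro v; rfl
    | succ n ih =>
      intro v
      rw [pow_succ, Module.End.mul_apply, Module.End.mul_apply, ih]
      congr 1
      rw [LinearMap.sub_apply, LinearMap.sub_apply, map_sub, hD.comm]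
      rfl
  let U : Submodule F V :=
    { carrier := {v | ∃ n : ℕ, ((φ - 1) ^ n) v = 0}
      add_mem' := by
        rintro x y ⟨a, ha⟩ ⟨b, hb⟩
        refine ⟨a + b, ?_⟩
        have h1 : ((φ - 1) ^ (a + b)) x = 0 := by
          rw [add_comm, pow_add, Module.End.mul_apply, ha, map_zero]
        have h2 : ((φ - 1) ^ (a + b)) y = 0 := by
          rw [pow_add, Module.End.mul_apply, hb, map_zero]
        rw [map_add, h1, h2, add_zero]
      zero_mem' := ⟨0, map_zero _⟩
      smul_mem' := by
        rintro c x ⟨a, ha⟩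
        exact ⟨a, by rw [map_smul, ha, smul_zero]⟩ }
  have hU : U ≤ A := by
    refine le_of_kernels' (ρ := ρ) ?_ ?_
    · rintro x u ⟨n, hn⟩
      exact ⟨n, by rw [← hpow, hn, map_zero]⟩
    · intro a v hv hN
      exact hD.known a (h a) v hv hN
  have h1 : ∀ v, φ v = v → ∃ n : ℕ, ((φ - 1) ^ n) v = 0 := by
    intro v hv
    refine ⟨1, ?_⟩
    rw [pow_one, LinearMap.sub_apply, hv]
    exact sub_self v
  exact ⟨fun v => ⟨hD.fixed v, fun hv => hU (h1 v hv)⟩,
    fun v => ⟨fun hv => h1 v (hD.fixed v hv), fun hv => hU hv⟩⟩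

end Pool.Agent.Results.MP_8ac872_ag.AbelianQuadrics
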