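import Mathlib

/-!
# The Tate conjecture for divisors and abelian schemes over the affine line

Let `p` be a prime number. We show that the following are equivalent.

1. The Tate conjecture for divisors (question Q1) for all smooth projective varieties over all finite
   fields of characteristic `p`.
2. Question Q1 for all smooth projective surfaces over `𝔽_p` with a morphism to the projective line
   `ℙ¹` over `𝔽_p` which is smooth over the affine line `𝔸¹` (its fibres need not be connected).
3. The Tate-Shafarevich groups of all abelian varieties over all global fields of characteristic `p` are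
   finite.
4. `Ш(A / 𝔽_p(t))` is finite for all abelian schemes `A` over the affine line `𝔸¹` over `𝔽_p` with a
   principal polarization.
5. The rank of `A(𝔽_p(t))` is the order of `L(A, s)` at `s = 1`, for all these `A`.

The point is that bad reduction can be concentrated at one place: for every global field `K` of
characteristic `p` and every finite set `S` of places of `K` there is an embedding of `𝔽_p(t)` in `K` such
that `K` is finite, separable, and unramified at all places of `𝔽_p(t)` different from `∞`, and the places in
`S` lie above `∞` (Abhyankar, Katz, Kedlaya). The Weil restriction of an abelian variety over `K` with good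
reduction outside `S` is then the generic fibre of an abelian scheme over `𝔸¹`; the Tate-Shafarevich
group does not change. In the same way a pencil of curves becomes smooth over `𝔸¹` (with disconnected
fibres).

All varieties and fields are over finite fields of the fixed characteristic `p`. A variety over a finite
field `k` is also a variety over `𝔽_p`; this does not change question Q1.
-/

set_option autoImplicit false

namespace Pool.Agent.Results.MP_8ac872_ag.AbelianSchemesOverLine

/-- Global fields of characteristic `p`, abelian varieties over them, smooth projective varieties over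
finite fields of characteristic `p`, pencils. -/
structure Setting where
  /-- global fields of characteristic `p` -/
  Fld : Type
  /-- places -/
  Place : Fld → Type
  /-- embeddings `K → L` for which `L` is finite and separable over `K` -/
  Ext : Fld → Fld → Type
  /-- the place of `K` below a place of `L` -/
  below : ∀ {K L : Fld}, Ext K L → Place L → Place K
  /-- the places of `K` which are ramified in `L` -/
  ramified : ∀ {K L : Fld}, Ext K L → Set (Place K)
  /-- the field `𝔽_p(t)` -/
  line : Fld
  /-- its place `∞` -/
  infty : Place line
  /-- abelian varieties -/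
  AV : Fld → Type
  /-- the places of bad reduction -/
  bad : ∀ {K : Fld}, AV K → Set (Place K)
  /-- Weil restriction -/
  res : ∀ {K L : Fld}, Ext K L → AV L → AV K
  /-- there is a principal polarization -/
  Principal : ∀ {K : Fld}, AV K → Prop
  /-- the Tate-Shafarevich group is finite -/
  Sha : ∀ {K : Fld}, AV K → Prop
  /-- the rank of the group of rational points -/
  rank : ∀ {K : Fld}, AV K → ℕ
  /-- the order of the `L`-function at `s = 1` -/
  ord : ∀ {K : Fld}, AV K → ℕ
  /-- smooth projective varieties over finite fields of characteristic `p` -/
  Var : Type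
  /-- question Q1 for the variety, for all primes different from `p` -/
  Tate : Var → Prop
  /-- surfaces -/
  Surface : Var → Prop
  /-- morphisms of smooth projective surfaces to the smooth projective curve with function field `K`,
  generically smooth -/
  Pencil : Fld → Type
  /-- the surface -/
  total : ∀ {K : Fld}, Pencil K → Var
  /-- the places (closed points of the curve) above which the morphism is not smooth -/
  sing : ∀ {K : Fld}, Pencil K → Set (Place K)
  /-- composition with the morphism of curves given by a field extension -/
  push : ∀ {K L : Fld}, Ext K L → Pencil L → Pencil K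

/-- The known facts about abelian varieties. -/
structure IsAbelian (D : Setting) : Prop where
  /-- there are finitely many places of bad reduction -/
  finite_bad : ∀ (K : D.Fld) (A : D.AV K), (D.bad A).Finite
  /-- every curve with finitely many points removed is a finite étale covering of the affine line, one
  can map finitely many given points to `∞` (Abhyankar, Katz, Kedlaya) -/
  toLine : ∀ (K : D.Fld) (S : Set (D.Place K)), S.Finite → ∃ f : D.Ext D.line K,
    (∀ v ∈ D.ramified f, v = D.infty) ∧ ∀ w ∈ S, D.below f w = D.infty
  /-- Weil restriction does not change the Tate-Shafarevich group (Milne) -/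
  sha_res : ∀ (K L : D.Fld) (f : D.Ext K L) (A : D.AV L), D.Sha (D.res f A) ↔ D.Sha A
  /-- the Weil restriction has good reduction where the extension is unramified and all reductions above
  are good -/
  bad_res : ∀ (K L : D.Fld) (f : D.Ext K L) (A : D.AV L), ∀ v ∈ D.bad (D.res f A),
    v ∈ D.ramified f ∨ ∃ w ∈ D.bad A, D.below f w = v
  /-- Zarhin's trick; products, duality -/
  zarhin : ∀ (K : D.Fld) (A : D.AV K), ∃ B : D.AV K,
    D.Principal B ∧ D.bad B ⊆ D.bad A ∧ (D.Sha B ↔ D.Sha A)
  /-- Tate, Milne, Schneider, Kato and Trihan -/
  bsd : ∀ (K : D.Fld) (A : D.AV K), D.Sha A ↔ D.rank A = D.ord A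

/-- The known facts about varieties over finite fields. -/
structure IsTate (D : Setting) : Prop where
  /-- the conjecture for divisors follows from the case of surfaces (de Jong, Morrow) -/
  surfaces : (∀ Y : D.Var, D.Surface Y → D.Tate Y) → ∀ Y : D.Var, D.Tate Y
  /-- pencils: after a finite extension of the base field and blowing up points every surface has a
  morphism to the projective line -/
  pencil : ∀ Y : D.Var, D.Surface Y → ∃ (K : D.Fld) (P : D.Pencil K), D.Tate (D.total P) → D.Tate Y
  /-- the fibres are smooth except for finitely many -/
  finite_sing : ∀ (K : D.Fld) (P : D.Pencil K), (D.sing P).Finite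
  /-- composition does not change the surface -/
  total_push : ∀ (K L : D.Fld) (f : D.Ext K L) (P : D.Pencil L), D.total (D.push f P) = D.total P
  /-- compositions of smooth morphisms are smooth -/
  sing_push : ∀ (K L : D.Fld) (f : D.Ext K L) (P : D.Pencil L), ∀ v ∈ D.sing (D.push f P),
    v ∈ D.ramified f ∨ ∃ w ∈ D.sing P, D.below f w = v
  /-- the generic fibre of a pencil has a Jacobian, whose Tate-Shafarevich group is finite if and only
  if Q1 holds for the surface (Artin, Tate, Milne, Ulmer) -/
  jacobian : ∀ (K : D.Fld) (P : D.Pencil K), ∃ J : D.AV K, D.Sha J → D.Tate (D.total P)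
  /-- every abelian variety is, up to isogeny, a factor of a Jacobian, and every curve over `K` is the
  generic fibre of a pencil (Matsusaka, Abhyankar; Artin, Tate, Milne) -/
  factor : ∀ (K : D.Fld) (A : D.AV K), ∃ P : D.Pencil K, D.Tate (D.total P) → D.Sha A

variable {D : Setting}

lemma exists_scheme (h : IsAbelian D) (K : D.Fld) (A : D.AV K) : ∃ B : D.AV D.line,
    D.Principal B ∧ (∀ v ∈ D.bad B, v = D.infty) ∧ (D.Sha B ↔ D.Sha A) := by
  obtain ⟨f, h1, h2⟩ := h.toLine K (D.bad A) (h.finite_bad K A)
  obtain ⟨B, h3, h4, h5⟩ := h.zarhin D.line (D.res f A)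
  refine ⟨B, h3, fun v hv => ?_, h5.trans (h.sha_res _ _ f A)⟩
  rcases h.bad_res _ _ f A v (h4 hv) with h6 | ⟨w, hw, rfl⟩
  · exact h1 v h6
  · exact h2 w hw

lemma exists_pencil (h : IsAbelian D) (h' : IsTate D) (K : D.Fld) (P : D.Pencil K) :
    ∃ Q : D.Pencil D.line, D.total Q = D.total P ∧ ∀ v ∈ D.sing Q, v = D.infty := by
  obtain ⟨f, h1, h2⟩ := h.toLine K (D.sing P) (h'.finite_sing K P)
  refine ⟨D.push f P, h'.total_push _ _ f P, fun v hv => ?_⟩
  rcases h'.sing_push _ _ f P v hv with h6 | ⟨w, hw, rfl⟩
  · exact h1 v h6
  · exact h2 w hw

/-- **The Tate conjecture for divisors and abelian schemes over the affine line.** See the explanations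
above. -/
theorem result (h : IsAbelian D) (h' : IsTate D) : List.TFAE [
    ∀ Y : D.Var, D.Tate Y,
    ∀ P : D.Pencil D.line, (∀ v ∈ D.sing P, v = D.infty) → D.Tate (D.total P),
    ∀ (K : D.Fld) (A : D.AV K), D.Sha A,
    ∀ A : D.AV D.line, D.Principal A → (∀ v ∈ D.bad A, v = D.infty) → D.Sha A,
    ∀ A : D.AV D.line, D.Principal A → (∀ v ∈ D.bad A, v = D.infty) → D.rank A = D.ord A] := by
  tfae_have 1 → 2 := fun h1 P _ => h1 _
  tfae_have 2 → 1 := by
    intro h2
    refine h'.surfaces fun Y hY => ?_
    obtain ⟨K, P, hP⟩ := h'.pencil Y hY
    obtain ⟨Q, h3, h4⟩ := exists_pencil h h' K P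
    exact hP (h3 ▸ h2 Q h4)
  tfae_have 1 → 3 := by
    intro h1 K A
    obtain ⟨P, hP⟩ := h'.factor K A
    exact hP (h1 _)
  tfae_have 3 → 4 := fun h3 A _ _ => h3 _ A
  tfae_have 4 → 3 := by
    intro h4 K A
    obtain ⟨B, hB, hb, hs⟩ := exists_scheme h K A
    exact hs.mp (h4 B hB hb)
  tfae_have 3 → 1 := by
    intro h3
    refine h'.surfaces fun Y hY => ?_
    obtain ⟨K, P, hP⟩ := h'.pencil Y hY
    obtain ⟨J, hJ⟩ := h'.jacobian K P
    exact hP (hJ (h3 K J))
  tfae_have 4 ↔ 5 :=
    forall_congr' fun A => imp_congr_right fun _ => imp_congr_right fun _ => h.bsd _ A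
  tfae_finish

end Pool.Agent.Results.MP_8ac872_ag.AbelianSchemesOverLine
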