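import Pool.Agent.Q193.LT.Rank

/-!
# The Tate conjecture for divisors over finite fields and poles of zeta functions of cubic hypersurfaces

Let `k` be a finite field. For a separated scheme `X` of finite type over `k` and an integer `m` let

* `D.ord m X` be the order of the pole of the zeta function `ζ(X, s)` of `X` at `s = m` (minus the order
  of the zero if `ζ(X, m) = 0`; the zeta function is a rational function of `q^{-s}`, so this is a
  statement about the numbers of points of `X` over the extensions of `k`);
* `D.rk m X = ∑_i (-1)^i rank H^i(N^m(W(X)))`, where `W(X)` is the weight complex of `X` (Gillet, Soulé,
  Bondarko; a bounded complex of Chow motives with `W(Y) = h(Y)` for smooth projective `Y`) and `N^m`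
  the group of cycles of codimension `m` modulo numerical equivalence, with rational coefficients
  (finite dimensional, so there is no condition `D.fin`).

For a smooth projective surface `Y` over `k` the formula `D.ord m Y = D.rk m Y` (all `m`) is question Q1
for `Y`: the cases `m ≠ 1` are trivial, `D.rk 1 Y` is the dimension of `V_div(Y)`, and the order of
the pole of `ζ(Y, s)` at `s = 1` is the multiplicity of `q` as a root of `Q_2(Y, T)`; if the formula is
true, then `V_div(Y)` is equal to the space of invariants, whose dimension is at most this multiplicity.

Two known facts are hypotheses. `surfaces`: `TateOne Y` is the statement of question Q1 for `Y`, and it is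
true for all smooth projective `Y` over `k` if it is true for surfaces (Lefschetz theorems).
`gen`: if the formula is true for all smooth projective varieties of dimension at most `n`, then it is
true for all schemes of dimension at most `n`; here one uses that the terms of `W(X)` are direct factors
of Tate twists of motives of smooth projective varieties of dimension at most `n` (alterations of
de Jong and Gabber), and that for every Chow motive the rank is at most the order.

**Theorem.** (1) The Tate conjecture for divisors (question Q1) is true for all smooth projective
varieties over `k` if and only if, for all `m`,

`order of the pole of ζ(Z, s) at s = m  =  ∑_i (-1)^i rank H^i(N^m(W(Z)))`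

for the smooth affine cubic hypersurfaces `Z : T(x, y, z) = 1` of all trilinear forms `T` over `k` such
that one of the three blocks of variables has at most four variables (the other two blocks are arbitrary).
As varieties over a finite field of characteristic `p` are also varieties over `𝔽_p`, it is enough to
consider the fields `k = 𝔽_p`.

(2) Unconditionally, the formula is true for the hypersurfaces `T(x, y, z) = 1` such that one of the
three blocks of variables has at most three variables.

(3) For all `n`, the formula is true for all smooth projective varieties over `k` of dimension at most `n`
(the Tate conjecture in all codimensions, with orders of poles and numerical equivalence) if and only if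
it is true for the hypersurfaces `T(x, y, z) = 1` such that one of the three blocks of variables has
at most `n + 2` variables.
-/

set_option autoImplicit false

open CategoryTheory CategoryTheory.Limits AlgebraicGeometry Pool.Agent.Y116.UV Pool.Agent.Z125.UN
  Pool.Agent.Q193.LT

namespace Pool.Agent.Results.MP_8ac872_ag.PolesOfCubics

/-- The formula for all smooth projective schemes of dimension at most `n`. -/
def Proj {k : Type} [Field k] (D : RankData k) (n : ℕ) : Prop :=
  ∀ Y : Sch k, SmoothProj Y → topologicalKrullDim Y.left ≤ n → RankFormula D Y

/-- The formula for all hypersurfaces `T = 1` with a block of at most `m` variables. -/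
def Forms {k : Type} [Field k] (D : RankData k) (m : ℕ) : Prop :=
  ∀ (a b c : ℕ) (T : Fin a → Fin b → Fin c → k), (a ≤ m ∨ b ≤ m ∨ c ≤ m) →
    RankFormula D (hypS T)

/-- Smooth projective schemes generate, in each dimension. -/
def Gen {k : Type} [Field k] (D : RankData k) : Prop :=
  ∀ n : ℕ, Proj D n →
    ∀ X : Sch k, FT True X → topologicalKrullDim X.left ≤ n → RankFormula D X

/-- **The Tate conjecture for divisors and poles of cubic hypersurfaces.** See the explanations above;
`point` and `curves` are the trivial case `Spec k` and the known case of dimension at most `1`. -/
theorem result {k : Type} [Field k] [Finite k] {D : RankData k} (hD : IsRank D) (gen : Gen D)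
    (point : RankFormula D (aff k k)) (curves : Proj D 1) {TateOne : Sch k → Prop}
    (surfaces : (∀ Y : Sch k, SmoothProj Y → TateOne Y) ↔ Proj D 2) :
    ((∀ Y : Sch k, SmoothProj Y → TateOne Y) ↔ Forms D 4) ∧ Forms D 3 ∧
      ∀ n : ℕ, Proj D n ↔ Forms D (n + 2) := by
  have h : ∀ n : ℕ, Proj D n ↔ Forms D (n + 2) := fun n =>
    Iff.trans ⟨gen n, fun h Y hY hn => h Y hY.ft hn⟩ (dim_iff (bnd_rank hD point) n)
  exact ⟨surfaces.trans (h 2), (h 1).mp curves, h⟩

end Pool.Agent.Results.MP_8ac872_ag.PolesOfCubics
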