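import Pool.Agent.Y160.T5.Fin
import Pool.Agent.Results.MP_17a657_ag.RationalBranchPoints

set_option autoImplicit false

/-!
# The Tate conjecture for divisors on the surfaces `y ^ ℓ = x (x + β) (x - g(t ^ M))` for a positive
# proportion of all polynomials `g` over every large finite field, for all `ℓ` and all `M`

Let `m ≥ 1`, let `R` be odd, and let `F` be a finite field with at least `4 R m + 2` elements which
contains the roots of unity of order `R`. For `v` in `F ^ (m + 2)` let `G` be the monic polynomial of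
degree `m` with the coefficients `v_0, ..., v_(m - 1)`, `B = v_m` and `c = v_(m + 1)`; so
`g = c G` is an arbitrary polynomial of degree `m`, and `β = c B` an arbitrary constant.

Theorem. For at least the proportion `1 / (16 (R m) ^ 2)` of all `v` the following holds for ALL finite
extensions `F'` of `F` of degree prime to `R m`, ALL divisors `M` of powers of `R`, and ALL primes `ℓ`
which do not divide `3 R m` such that `F'` contains a primitive root of unity of order `ℓ`: `c B` is
not zero, `g(t ^ M)` and `g(t ^ M) + β` are irreducible over `F'`, and the Tate conjecture at `ℓ` holds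
over `F'` for the divisors on the surface

  `y ^ ℓ = x (x + β) (x - g(t ^ M))`,

the pull-back by `t ↦ g(t ^ M)` of the surface `y ^ ℓ = x (x + β) (x - t)`; for `ℓ = 2` it is the
pull-back of the Legendre family.

By the theorems of Artin, Tate and Milne (fibration over the line with a section; not formalised)
the answer to the question of this problem is yes for smooth projective models `Y` of all these
surfaces over `F'`, for all primes `ℓ'`: the classes of divisors span the invariants, and their
dimension is the multiplicity of `|F'|` as a root of `Q_2(Y, T)`. The geometric genus is unbounded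
(`m`, `M`, `ℓ` grow).
-/

namespace Pool.Agent.Results.MP_8ac872_ag.PositiveProportionPullbacks

open Polynomial
open Pool.Agent.TH115.GD (IsTower)
open Pool.Agent.Y713.Tate (TateAt)
open Pool.Agent.Y160.SL (coefG coefB coefC)
open Pool.Agent.Y160.T3 (GoodP coefG_map coefB_map coefG_monic coefG_natDegree coefB_natDegree
  sum_monic irr_expand vec_count)

/-- The polynomial `x (x + β) (x - g(t))` over `K = k(t)`. -/
noncomputable def cubic (K : Type) {k : Type} [Field k] [Field K] [Algebra k[X] K] (β : k)
    (g : k[X]) : K[X] :=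
  X * (X + C (algebraMap k[X] K (C β))) * (X - C (algebraMap k[X] K g))

/-- `g = c G` -/
noncomputable def gPoly {k : Type} [Field k] (m : ℕ) (v : Fin (m + (0 + 2)) → k) : k[X] :=
  C (coefC m 0 v) * coefG m 0 v

/-- `β = c B` -/
noncomputable def bConst {k : Type} [Field k] (m : ℕ) (v : Fin (m + (0 + 2)) → k) : k :=
  coefC m 0 v * (coefB m 0 v).coeff 0

/-- The conclusions over the field `k` for the polynomial `g` and the constant `β`: `β ≠ 0`, `g` and
`g + β` are irreducible, and the Tate conjecture at `ℓ` holds for the divisors on the surface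
`y ^ ℓ = x (x + β) (x - g(t))` for all the primes `ℓ` which do not divide `N` such that `k` contains a
primitive root of unity of order `ℓ`. -/
def AllTate (N : ℕ) (k : Type) [Field k] (β : k) (g : k[X]) : Prop :=
  (β ≠ 0 ∧ Irreducible g ∧ Irreducible (g + C β)) ∧
  ∀ ℓ : ℕ, ℓ.Prime → ¬ ℓ ∣ N → (∃ ζ : k, IsPrimitiveRoot ζ ℓ) →
    ∀ (k' K L : Type) [Field k'] [Algebra k k'] [Field K] [Algebra k[X] K] [Field L]
      [Algebra k'[X] L] [IsFractionRing k'[X] L] [Algebra K L], IsTower k k' K L →
        TateAt (F := L) ℓ k' (cubic K β g)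

theorem allTate {N : ℕ} {k : Type} [Field k] [Finite k] {β : k} {g : k[X]} (hβ : β ≠ 0)
    (h1 : Irreducible g) (h2 : Irreducible (g + C β))
    (hN : ∀ ℓ : ℕ, ℓ.Prime → ¬ ℓ ∣ N → ℓ ≠ 3 ∧ ¬ ℓ ∣ g.natDegree) : AllTate N k β g := by
  refine ⟨⟨hβ, h1, h2⟩, fun ℓ hℓ hℓN ⟨ζ, hζ⟩ k' K L _ _ _ _ _ _ _ _ hT => ?_⟩
  obtain ⟨h3, hd⟩ := hN ℓ hℓ hℓN
  have hc : Function.Injective (![0, -β] : Fin 2 → k) := by
    intro i j hij
    fin_cases i <;> fin_cases j
    · rfl
    · exact absurd (neg_eq_zero.1 (Eq.symm hij)) hβ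
    · exact absurd (neg_eq_zero.1 hij) hβ
    · rfl
  have hi : ∀ i, Irreducible (g - C ((![0, -β] : Fin 2 → k) i)) := by
    intro i
    fin_cases i
    · change Irreducible (g - C 0)
      rwa [C_0, sub_zero]
    · change Irreducible (g - C (-β))
      rwa [C_neg, sub_neg_eq_add]
  have h4 := Pool.Agent.Results.MP_17a657_ag.RationalBranchPoints.movingPoint (F := L) hT hℓ hζ
    (m := 2) (fun h => h3 ((Nat.prime_dvd_prime_iff_eq hℓ Nat.prime_three).1 h)) hc (g := g)
    (fun i => ⟨hi i, PerfectField.separable_of_irreducible (hi i)⟩) hd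
  have e : Pool.Agent.Results.MP_17a657_ag.RationalBranchPoints.branchPoly K
      (Fin.snoc (fun i => C ((![0, -β] : Fin 2 → k) i)) g : Fin (2 + 1) → k[X]) =
        cubic K β g := by
    unfold Pool.Agent.Results.MP_17a657_ag.RationalBranchPoints.branchPoly cubic
    rw [Fin.prod_univ_castSucc, Fin.prod_univ_two]
    simp only [Fin.snoc_castSucc, Fin.snoc_last, Matrix.cons_val_zero, Matrix.cons_val_one]
    rw [C_0, map_zero, C_0, sub_zero, C_neg, map_neg, C_neg, sub_neg_eq_add]
  rw [e] at h4
  exact h4

theorem result {m R : ℕ} (hm : 0 < m) (hR : Odd R) (F : Type) [Field F] [Finite F]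
    (hRF : R ∣ Nat.card F - 1) (hn : 4 * (R * m) + 2 ≤ Nat.card F) :
    Nat.card F ^ (m + (0 + 2)) ≤ 16 * (R * m) ^ 2 *
      {v : Fin (m + (0 + 2)) → F | ∀ (F' : Type) [Field F'] [Algebra F F'] [FiniteDimensional F F'],
        (R * m).Coprime (Module.finrank F F') → ∀ M e : ℕ, M ∣ R ^ e →
          AllTate (3 * (R * m)) F' (bConst m (fun i => algebraMap F F' (v i)))
            ((gPoly m (fun i => algebraMap F F' (v i))).comp (X ^ M))}.ncard := by
  classical
  haveI : Fintype F := Fintype.ofFinite F
  rw [Nat.card_eq_fintype_card] at hRF hn ⊢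
  set S0 : Set (Fin (m + (0 + 2)) → F) := {v : Fin (m + (0 + 2)) → F | ∀ (F' : Type) [Field F']
    [Algebra F F'] [FiniteDimensional F F'],
        (R * m).Coprime (Module.finrank F F') → ∀ M e : ℕ, M ∣ R ^ e →
          AllTate (3 * (R * m)) F' (bConst m (fun i => algebraMap F F' (v i)))
            ((gPoly m (fun i => algebraMap F F' (v i))).comp (X ^ M))} with hS0
  have hfin : S0.Finite := Set.toFinite _
  rw [Set.ncard_eq_toFinset_card S0 hfin]
  have hqr : 1 * 0 < m := by omega
  refine vec_count hR hqr one_pos (Nat.coprime_one_left _) F hRF hn _ fun v hc hb hg hg2 => ?_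
  rw [Set.Finite.mem_toFinset, hS0]
  intro F' _ _ _ hrk M e hM
  haveI : Finite F' := Module.finite_of_finite F
  have hinj : Function.Injective (algebraMap F F') := (algebraMap F F').injective
  have hc' : coefC m 0 (fun i => algebraMap F F' (v i)) ≠ 0 := (_root_.map_ne_zero _).2 hc
  have hb' : coefB m 0 (fun i => algebraMap F F' (v i)) ≠ 0 := by
    rw [← coefB_map]
    exact (Polynomial.map_ne_zero_iff hinj).2 hb
  have hg' : GoodP R (coefG m 0 (fun i => algebraMap F F' (v i))) := by
    rw [← coefG_map]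
    exact Pool.Agent.Y160.T5.good_ext (coefG_monic v) hg (by rwa [coefG_natDegree])
  have hg2' : GoodP R (coefG m 0 (fun i => algebraMap F F' (v i)) +
      coefB m 0 (fun i => algebraMap F F' (v i)) ^ 1) := by
    rw [← coefG_map, ← coefB_map, ← Polynomial.map_pow, ← Polynomial.map_add]
    refine Pool.Agent.Y160.T5.good_ext (sum_monic v hqr) hg2 ?_
    have h1 : (coefG m 0 v + coefB m 0 v ^ 1).natDegree = m := by
      rw [natDegree_add_eq_left_of_natDegree_lt, coefG_natDegree]
      rw [coefG_natDegree]
      exact (natDegree_pow_le.trans (Nat.mul_le_mul le_rfl (coefB_natDegree v))).trans_lt hqr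
    rwa [h1]
  generalize hw : (fun i => algebraMap F F' (v i)) = w at hc' hb' hg' hg2' ⊢
  have hMo : Odd M := hR.pow.of_dvd_nat hM
  have hMR : ∀ N : ℕ, N.Prime → N ∣ M → N ∣ R := fun N hN hNM => hN.dvd_of_dvd_pow (hNM.trans hM)
  have i1 : Irreducible ((coefG m 0 w).comp (X ^ M)) := by
    rw [← expand_eq_comp_X_pow]
    exact irr_expand (coefG_monic _) hg'.1 hMo fun N hN hNM => hg'.2 N hN (hMR N hN hNM)
  have i2 : Irreducible ((coefG m 0 w + coefB m 0 w ^ 1).comp (X ^ M)) := by
    rw [← expand_eq_comp_X_pow]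
    exact irr_expand (sum_monic _ hqr) hg2'.1 hMo fun N hN hNM => hg2'.2 N hN (hMR N hN hNM)
  have eB : coefB m 0 w = C ((coefB m 0 w).coeff 0) :=
    eq_C_of_natDegree_le_zero (coefB_natDegree w)
  have hb0 : (coefB m 0 w).coeff 0 ≠ 0 := by
    intro h0
    rw [h0, C_0] at eB
    exact hb' eB
  have hcu : IsUnit (C (coefC m 0 w)) := isUnit_C.2 (isUnit_iff_ne_zero.2 hc')
  refine allTate (mul_ne_zero hc' hb0) ?_ ?_ ?_
  · unfold gPoly
    rw [mul_comp, C_comp]
    exact (irreducible_isUnit_mul hcu).2 i1
  · have e1 : (gPoly m w).comp (X ^ M) + C (bConst m w) =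
        C (coefC m 0 w) * (coefG m 0 w + coefB m 0 w ^ 1).comp (X ^ M) := by
      unfold gPoly bConst
      rw [pow_one, mul_comp, C_comp, add_comp, mul_add, C_mul]
      congr 2
      conv_rhs => rw [eB, C_comp]
    rw [e1]
    exact (irreducible_isUnit_mul hcu).2 i2
  · intro ℓ hℓ hℓN
    have e1 : ((gPoly m w).comp (X ^ M)).natDegree = m * M := by
      unfold gPoly
      rw [mul_comp, C_comp, natDegree_C_mul hc', natDegree_comp, natDegree_X_pow, coefG_natDegree]
    rw [e1]
    refine ⟨fun h => hℓN (h ▸ Dvd.intro _ rfl), fun h => hℓN ?_⟩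
    rcases (hℓ.dvd_mul).1 h with h1 | h1
    · exact (h1.mul_left _).mul_left _
    · exact ((hℓ.dvd_of_dvd_pow (h1.trans hM)).mul_right _).mul_left _

end Pool.Agent.Results.MP_8ac872_ag.PositiveProportionPullbacks
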